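import Mathlib
import Pool.Agent.H.MP_10f401_gt.B

set_option autoImplicit false

namespace Pool.Agent.H.MP_cf3fbb_gt

open Set Filter Topology Cardinal TopologicalSpace Pool.Agent.H.MP_5382b1_gt Pool.Agent.H.MP_10f401_gt

def Fn : Set V := {y | {m | y m = 1}.Finite}

theorem dense_fn : Dense Fn := by
  refine dense_iff_inter_open.2 fun W hW ⟨y, hy⟩ => ?_
  have h : Tendsto (fun n => fun i : ℕ => if i < n then y i else 0) atTop (𝓝 y) := by
    refine tendsto_pi_nhds.2 fun i => tendsto_const_nhds.congr' ?_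
    filter_upwards [eventually_gt_atTop i] with n hn
    rw [if_pos hn]
  obtain ⟨n, hn⟩ := (h.eventually (hW.mem_nhds hy)).exists
  refine ⟨_, hn, (finite_Iio n).subset fun i hi => by_contra fun h' => ?_⟩
  simp [show ¬ i < n from h'] at hi

theorem gap {U : Set (V × V)} (hU : IsOpen U) (h : Fn ×ˢ Set.univ ⊆ U) (k : ℕ) :
    ∃ m > k, ∀ z : V × V, (∀ j, k ≤ j → j < m → z.1 j ≠ 1) → z ∈ U := by
  by_contra hc
  push Not at hc
  have h1 : ∀ m, IsClosed ({z : V × V | ∀ j, k ≤ j → j < m → z.1 j ≠ 1} \ U) := fun m => by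
    refine IsClosed.sdiff ?_ hU
    simp only [ofPred_forall]
    exact isClosed_iInter fun j => isClosed_iInter fun _ => isClosed_iInter fun _ =>
      (isClosed_discrete {1}ᶜ).preimage ((continuous_apply j).comp continuous_fst)
  obtain ⟨z, hz⟩ := IsCompact.nonempty_iInter_of_sequence_nonempty_isCompact_isClosed
    (fun m => {z : V × V | ∀ j, k ≤ j → j < m → z.1 j ≠ 1} \ U)
    (fun m => sdiff_subset_sdiff_left fun z hz j h1 h2 => hz j h1 (h2.trans m.lt_succ_self))
    (fun m => (hc (k + m + 1) (by omega)).imp fun z hz => ⟨fun j h1 h2 => hz.1 j h1 (by omega), hz.2⟩)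
    (h1 0).isCompact h1
  refine (mem_iInter.1 hz 0).2 (h ⟨(finite_Iio k).subset fun j hj => mem_Iio.2 (not_le.1 fun h2 => ?_), trivial⟩)
  exact (mem_iInter.1 hz (j + 1)).1 j h2 j.lt_succ_self hj

theorem gaps {U : Set (V × V)} (hU : IsOpen U) (h : Fn ×ˢ Set.univ ⊆ U) (n : ℕ) :
    ∃ (m : ℕ) (K : Set (V × V)), IsClosed K ∧ K ⊆ U ∧
      ∀ z : V × V, ((Finset.range m).filter fun j => z.1 j = 1).card ≤ n → z ∈ K := by
  have h1 : ∀ m n, IsClosed {z : V × V | ((Finset.range m).filter fun j => z.1 j = 1).card < n} :=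
    fun m n => (isClosed_discrete (Iio n)).preimage ((Pool.Agent.H.MP_919a9a_lc.cont_dep
      (fun z : V => ((Finset.range m).filter fun j => z j = 1).card) m fun z w h => congrArg _
        (Finset.filter_congr fun j hj => by rw [h j (Finset.mem_range.1 hj)])).comp continuous_fst)
  suffices ∃ m, ∀ z : V × V, ((Finset.range m).filter fun j => z.1 j = 1).card < n + 1 → z ∈ U by
    obtain ⟨m, hm⟩ := this
    exact ⟨m, _, h1 m (n + 1), hm, fun z hz => Nat.lt_succ_of_le hz⟩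
  generalize n + 1 = n
  induction n with
  | zero => exact ⟨0, by simp⟩
  | succ n ih =>
    obtain ⟨k, hk⟩ := ih
    obtain ⟨m, h2, h3⟩ := gap hU h k
    refine ⟨m, fun z hz => by_contra fun h4 => h4 (h3 z fun j h5 h6 h7 => h4 (hk z ?_))⟩
    refine lt_of_lt_of_le (Finset.card_lt_card ⟨Finset.filter_subset_filter _
      (Finset.range_mono h2.le), fun h8 => ?_⟩) (Nat.lt_succ_iff.1 hz)
    simpa [h5.not_gt] using h8 (Finset.mem_filter.2 ⟨Finset.mem_range.2 h6, h7⟩)

theorem main (hb : ∀ F : Set (ℕ → ℕ), #F < 𝔠 → ∃ g : ℕ → ℕ, ∀ f ∈ F, ∀ᶠ n in atTop, f n ≤ g n) :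
    ∃ X ⊆ Fn ×ˢ Set.univ ∪ Set.univ ×ˢ Fnᶜ,
      (∀ U : ℕ → Set (V × V), (∀ n, IsOpen (U n) ∧ X ⊆ U n) → ∃ K : ℕ → Set (V × V),
        (∀ n, IsClosed (K n) ∧ K n ⊆ U n) ∧ ∀ z ∈ X, ∀ᶠ n in atTop, z ∈ K n) ∧
      ∀ K : ℕ → Set (V × V), (∀ n, IsClosed (K n) ∧ K n ⊆ Fn ×ˢ Set.univ ∪ Set.univ ×ˢ Fnᶜ) →
        ¬ X ⊆ ⋃ n, K n := by
  classical
  let I := (𝔠 : Cardinal.{0}).ord.ToType
  have hI : #I = 𝔠 := mk_ord_toType _
  obtain ⟨j⟩ := (Cardinal.le_def ((ℕ → ℕ) × (ℕ → Set ℕ)) I).1 (by simp [hI])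
  let e := Function.invFun j
  have he : Function.Surjective e := Function.invFun_surjective j.injective
  have hlt : ∀ t : I, #(Iio t) < 𝔠 := fun t => by
    have := mk_Iio_lt t (by rw [hI]; simp [I])
    rwa [hI] at this
  obtain ⟨b, hb'⟩ := exists_seq_basis (V × V)
  let C : Set ℕ → Set (V × V) := fun A => (⋃ n ∈ A, b n)ᶜ
  have hC : ∀ S : Set (V × V), IsClosed S → ∃ A, C A = S := by
    intro S hS
    refine ⟨{n | b n ⊆ Sᶜ}, compl_eq_comm.1 (Subset.antisymm (fun x hx => ?_) ?_)⟩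
    · obtain ⟨_, ⟨n, rfl⟩, h1, h2⟩ := hb'.exists_subset_of_mem_open hx hS.isOpen_compl
      exact mem_iUnion₂.2 ⟨n, h2, h1⟩
    · exact iUnion₂_subset fun n hn => hn
  choose g hg using fun t : I => hb ((fun u => (e u).1) '' Iio t) (mk_image_le.trans_lt (hlt t))
  let y : I → V := fun t m => if m ∈ range (bb (g t)) then 1 else 0
  have y1 : ∀ t m, y t m = 1 ↔ m ∈ range (bb (g t)) := fun t m => by simp [y]
  have y2 : ∀ t, y t ∉ Fn := fun t h =>
    infinite_range_of_injective (bb_mono (g t)).injective (h.subset fun m hm => (y1 t m).2 hm)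
  have h1 : ∀ t, ∃ p ∉ Fn, ∀ n, C ((e t).2 n) ⊆ Fn ×ˢ Set.univ ∪ Set.univ ×ˢ Fnᶜ →
      (y t, p) ∉ C ((e t).2 n) := by
    intro t
    refine (dense_of_mem_residual (Eventually.and ?_ (eventually_countable_forall.2 fun n => ?_))).nonempty
    · have : Countable Fn := (Pool.Agent.H.MP_7a28e0_gt.cfin 1).to_subtype
      refine mem_of_superset (eventually_countable_forall.2 fun q : Fn => residual_of_dense_open
        (s := {q.1}ᶜ) isOpen_compl_singleton ?_) fun p hp h => hp ⟨p, h⟩ rfl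
      rw [← interior_eq_empty_iff_dense_compl, int_single]
    · by_cases h : C ((e t).2 n) ⊆ Fn ×ˢ Set.univ ∪ Set.univ ×ˢ Fnᶜ
      · refine mem_of_superset (residual_of_dense_open (s := Prod.mk (y t) ⁻¹' (C ((e t).2 n))ᶜ) ?_
          (dense_fn.mono fun p hp h' => (h h').elim (fun h => y2 t h.1) fun h => h.2 hp))
          fun p hp _ => hp
        rw [compl_compl]
        exact (isOpen_biUnion fun n _ => hb'.isOpen ⟨n, rfl⟩).preimage (by fun_prop)
      · exact Eventually.of_forall fun p h' => absurd h' h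
  choose p p1 p2 using h1
  refine ⟨Fn ×ˢ Set.univ ∪ range fun t => (y t, p t), union_subset_union_right _ ?_,
    fun U hU => ?_, fun K hK h => ?_⟩
  · rintro _ ⟨t, rfl⟩
    exact ⟨trivial, p1 t⟩
  · choose m K k1 k2 k3 using fun n => gaps (hU n).1 (subset_union_left.trans (hU n).2) n
    obtain ⟨u, hu⟩ := he (m, fun _ => ∅)
    have h0 : ∀ n, ∃ F : ℕ → Set (V × V), (∀ i, IsClosed (F i)) ∧ (∀ i, F i ⊆ U n) ∧
        ⋃ i, F i = U n ∧ Monotone F := fun n => by
      let A : PseudoMetricSpace (V × V) := pseudoMetrizableSpacePseudoMetric (V × V)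
      exact (hU n).1.exists_iUnion_isClosed
    choose L l1 l2 l2' l3 using h0
    have h2 : ∀ t n, ∃ i, (y t, p t) ∈ L n i := fun t n =>
      mem_iUnion.1 ((l2' n).ge ((hU n).2 (Or.inr ⟨t, rfl⟩)))
    choose f hf using h2
    obtain ⟨f', hf'⟩ := hb (f '' Iic u) (mk_image_le.trans_lt (by
      rw [← Iio_insert]
      exact mk_insert_le.trans_lt (add_lt_of_lt aleph0_le_continuum (hlt u)
        (one_lt_aleph0.trans aleph0_lt_continuum))))
    refine ⟨fun n => K n ∪ L n (f' n), fun n => ⟨(k1 n).union (l1 n _),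
      union_subset (k2 n) (l2 n _)⟩, ?_⟩
    rintro z (hz | ⟨t, rfl⟩)
    · filter_upwards [eventually_ge_atTop hz.1.toFinset.card] with n hn
      refine Or.inl (k3 n z ((Finset.card_le_card fun j hj => ?_).trans hn))
      simpa using (Finset.mem_filter.1 hj).2
    · rcases le_or_gt t u with h | h
      · filter_upwards [hf' _ ⟨t, h, rfl⟩] with n hn
        exact Or.inr (l3 n hn (hf t n))
      · filter_upwards [hg t _ ⟨u, h, rfl⟩] with n hn
        refine Or.inl (k3 n _ ((Finset.card_le_card (t := (Finset.range n).image (bb (g t)))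
          fun j hj => ?_).trans (Finset.card_image_le.trans (by simp))))
        obtain ⟨k6, k7⟩ := Finset.mem_filter.1 hj
        obtain ⟨i, rfl⟩ := (y1 t j).1 k7
        simp only [hu] at hn
        exact Finset.mem_image_of_mem _ (Finset.mem_range.2 ((bb_mono _).lt_iff_lt.1
          ((Finset.mem_range.1 k6).trans_le (hn.trans (le_bb _ n)))))
  · choose A hA using fun n => hC _ (hK n).1
    obtain ⟨t, ht⟩ := he (0, A)
    obtain ⟨n, hn⟩ := mem_iUnion.1 (h (Or.inr ⟨t, rfl⟩))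
    have := p2 t n
    simp only [ht, hA] at this
    exact this (hK n).2 hn

end Pool.Agent.H.MP_cf3fbb_gt
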